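import Pool.Agent.H26.CogrowthAbelian

/-!
Problem MP_dc78ae_al, question Q2 (the case `m = 2` and `N = commutator (FreeGroup (Fin 2))`),
for all ranks `m ≥ 2` and all subgroups containing the commutator subgroup.
-/

namespace Pool.Agent.Results.MP_dc78ae_al.CommutatorSubgroup

open Pool.Agent.H26.Cogrowth

/-- A subgroup `N` of the free group of rank `m ≥ 2` containing the commutator subgroup has the
same multivariate cogrowth as the whole free group in every direction. -/
theorem result (m : ℕ) (hm : 2 ≤ m) (N : Subgroup (FreeGroup (Fin m)))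
    (hN : commutator (FreeGroup (Fin m)) ≤ N) :
    ∀ r ∈ stdSimplex ℝ (Fin m), psi N r = psi ⊤ r :=
  fun r hr => psi_eq_of_commutator_le hm N hN r hr

end Pool.Agent.Results.MP_dc78ae_al.CommutatorSubgroup
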