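import Pool.Agent.H26.CogrowthFinal

/-!
Problem MP_dc78ae_al, question Q1: a normal subgroup of a free group of rank at least two
with maximal cogrowth has the same multivariate cogrowth as the whole free group in every
direction.
-/

namespace Pool.Agent.Results.MP_dc78ae_al.MaxCogrowth

open Pool.Agent.H26.Cogrowth

/-- If the maximum of the multivariate cogrowth `psi N` of a normal subgroup `N` of the free group
of rank `m` over the simplex is `log (2m-1)`, then `psi N = psi ⊤` on the whole simplex. -/
theorem result (m : ℕ) (hm : 2 ≤ m) (N : Subgroup (FreeGroup (Fin m))) [N.Normal]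
    (hmax : IsGreatest (psi N '' stdSimplex ℝ (Fin m)) ((Real.log (2 * (m : ℝ) - 1) : ℝ) : EReal)) :
    ∀ r ∈ stdSimplex ℝ (Fin m), psi N r = psi ⊤ r := by
  intro r hr
  obtain ⟨⟨r₀, _, h₀⟩, _⟩ := hmax
  exact psi_eq_of_almostInv hm N (almostInv_of_psi hm N r₀ h₀.ge) r hr

end Pool.Agent.Results.MP_dc78ae_al.MaxCogrowth
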